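import Mathlib
import Pool.Agent.Lib.H90M.Fin

/-!
# The moduli space of maps of degree `d` with a marked point of period `n` is rational for `n ≤ 2 d + 1`

A point of `Marked d n` is a pair `(F, p)`: two binary forms `F = (F₀, F₁)` of degree `d` over `ℂ` without a common zero (that is, a
morphism `f : ℙ¹ → ℙ¹` of degree `d`), and a vector `p ≠ 0` of `ℂ²` which represents a point `P` of `ℙ¹` of exact period `n` for `f`.
Two points are related by `Conj` when the pairs `(f, P)` are conjugate by an element of `PGL₂(ℂ)`.

The theorem: for `d ≥ 2` and `1 ≤ n ≤ 2 d + 1` the set `Marked d n` is irreducible, and its quotient by `Conj` is a rational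
variety of dimension `2 d - 2` (`RatQuot`): there are `2 d - 2` rational functions on `Marked d n` which are invariant under
conjugation, and a polynomial map `s : ℂ^(2 d - 2) → ℂ^(2 d + 4)`, such that the functions induce a bijection from the set of the
conjugacy classes which meet a nonempty Zariski open subset of `Marked d n` onto a nonempty Zariski open subset of `ℂ^(2 d - 2)`, with
inverse `s`.

The space `M_d(n)` of the problem is defined by the formal period; the pairs of exact period `n` form a dense open subset of it, so
that the two moduli spaces are birational (standard, not proved here). The case `d = 2` is known (Blanc, Canci, Elkies 2015); see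
also Levy 2011 (`M_d` is rational), Manes 2009 (`M_2(n)` is irreducible), Doyle and Silverman 2020 (portraits).
-/

namespace Pool.Agent.Results.MP_8d6173_ag.SmallPeriodsRational

open Pool.Agent.Lib.H90M

theorem result (d n : ℕ) (hd : 2 ≤ d) (hn : 1 ≤ n) (hn' : n ≤ 2 * d + 1) :
    RatQuot (Marked d n) Conj (Fin (2 * d - 2)) :=
  main d n hd hn hn'

end Pool.Agent.Results.MP_8d6173_ag.SmallPeriodsRational
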